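import Mathlib

set_option autoImplicit false

/-!
# Maximal ideals on `ω` as unions of chains of ideals: the construction
-/

open Set

namespace Pool.Agent.K7.H77.Chain

universe u

/-- An ideal on `ω` (a proper one, not necessarily containing the finite sets). -/
def IsIdeal (J : Set (Set ℕ)) : Prop :=
  ∅ ∈ J ∧ univ ∉ J ∧ (∀ A ∈ J, ∀ B ∈ J, A ∪ B ∈ J) ∧ ∀ A ∈ J, ∀ B, B ⊆ A → B ∈ J

/-- A maximal ideal on `ω`. -/
def IsMaximalIdeal (I : Set (Set ℕ)) : Prop :=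
  IsIdeal I ∧ ∀ J, IsIdeal J → I ⊆ J → J = I

section construction

variable {ι : Type u} (X : ι → Set ℕ)

/-- The cell of `n` with respect to the sets `X i`, `i ∈ s`. -/
def cell (s : Finset ι) (n : ℕ) : Set ℕ := {m | ∀ i ∈ s, (m ∈ X i ↔ n ∈ X i)}

/-- The family is independent. -/
def Indep : Prop := ∀ (s : Finset ι) (P : ι → Prop), ∃ n, ∀ i ∈ s, (n ∈ X i ↔ P i)

/-- `J` is an ideal without cells. -/
def Good (J : Set (Set ℕ)) : Prop :=
  (∅ ∈ J ∧ (∀ A ∈ J, ∀ B ∈ J, A ∪ B ∈ J) ∧ ∀ A ∈ J, ∀ B, B ⊆ A → B ∈ J) ∧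
    ∀ s n, cell X s n ∉ J

variable {X}

theorem self_mem_cell (s : Finset ι) (n : ℕ) : n ∈ cell X s n := fun _ _ => Iff.rfl

theorem cell_eq {s : Finset ι} {m n : ℕ} (h : m ∈ cell X s n) : cell X s m = cell X s n := by
  ext k
  exact ⟨fun hk i hi => (hk i hi).trans (h i hi), fun hk i hi => (hk i hi).trans (h i hi).symm⟩

theorem cell_anti {s t : Finset ι} (h : s ⊆ t) (n : ℕ) : cell X t n ⊆ cell X s n :=
  fun _ hm i hi => hm i (h hi)

theorem exists_good : ∃ J, Good X J ∧ ∀ J', Good X J' → J ⊆ J' → J' ⊆ J := by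
  have h0 : Good X {∅} := by
    refine ⟨⟨rfl, ?_, ?_⟩, ?_⟩
    · rintro A rfl B rfl
      simp
    · rintro A rfl B hB
      exact subset_empty_iff.1 hB
    · intro s n h
      have := self_mem_cell (X := X) s n
      rw [mem_singleton_iff.1 h] at this
      exact this
  obtain ⟨J, -, hJ⟩ := zorn_subset_nonempty {J | Good X J} (fun c hc hch hne => by
    refine ⟨⋃₀ c, ⟨⟨?_, ?_, ?_⟩, ?_⟩, fun s hs => subset_sUnion_of_mem hs⟩
    · obtain ⟨J, hJ⟩ := hne
      exact ⟨J, hJ, (hc hJ).1.1⟩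
    · rintro A ⟨J1, h1, hA⟩ B ⟨J2, h2, hB⟩
      rcases hch.total h1 h2 with h | h
      · exact ⟨J2, h2, (hc h2).1.2.1 A (h hA) B hB⟩
      · exact ⟨J1, h1, (hc h1).1.2.1 A hA B (h hB)⟩
    · rintro A ⟨J1, h1, hA⟩ B hB
      exact ⟨J1, h1, (hc h1).1.2.2 A hA B hB⟩
    · rintro s n ⟨J1, h1, h⟩
      exact (hc h1).2 s n h) {∅} h0
  exact ⟨J, hJ.prop, fun J' h1 h2 => hJ.le_of_ge h1 h2⟩

variable {J : Set (Set ℕ)}

/-- every set outside `J` contains a cell modulo `J` -/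
theorem exists_cell (hJ : Good X J) (hmax : ∀ J', Good X J' → J ⊆ J' → J' ⊆ J) {A : Set ℕ}
    (hA : A ∉ J) : ∃ s n, cell X s n \ A ∈ J := by
  by_contra hcon
  push Not at hcon
  apply hA
  refine hmax {B | B \ A ∈ J} ⟨⟨?_, ?_, ?_⟩, hcon⟩ ?_ ?_
  · simp only [mem_ofPred_eq, empty_sdiff]
    exact hJ.1.1
  · intro B hB C hC
    simp only [mem_ofPred_eq, union_sdiff_distrib]
    exact hJ.1.2.1 _ hB _ hC
  · intro B hB C hC
    exact hJ.1.2.2 _ hB _ (sdiff_subset_sdiff_left hC)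
  · intro B hB
    exact hJ.1.2.2 _ hB _ sdiff_subset
  · simp only [mem_ofPred_eq, sdiff_self]
    exact hJ.1.1

/-- The cell `cell t m` decides `A` modulo `J`. -/
def Decides (X : ι → Set ℕ) (J : Set (Set ℕ)) (t : Finset ι) (m : ℕ) (A : Set ℕ) : Prop :=
  cell X t m \ A ∈ J ∨ cell X t m ∩ A ∈ J

/-- `A` is decided by cells with indices in `S`. -/
def Dec (X : ι → Set ℕ) (J : Set (Set ℕ)) (S : Set ι) (A : Set ℕ) : Prop :=
  ∀ (s : Finset ι) (n : ℕ), ∃ t : Finset ι, (t : Set ι) ⊆ S ∧ ∃ m ∈ cell X s n, Decides X J t m A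

theorem exists_decides (hJ : Good X J) (hmax : ∀ J', Good X J' → J ⊆ J' → J' ⊆ J) (A : Set ℕ)
    (s : Finset ι) (n : ℕ) : ∃ t : Finset ι, ∃ m ∈ cell X s n, Decides X J t m A := by
  by_cases h : cell X s n ∩ A ∈ J
  · exact ⟨s, n, self_mem_cell s n, Or.inr h⟩
  · obtain ⟨t, m, htm⟩ := exists_cell hJ hmax h
    -- the cell meets `cell s n`
    have hne : (cell X t m ∩ cell X s n).Nonempty := by
      by_contra hcon
      rw [not_nonempty_iff_eq_empty] at hcon
      apply hJ.2 t m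
      refine hJ.1.2.2 _ htm _ ?_
      intro k hk
      refine ⟨hk, fun hk' => ?_⟩
      have : k ∈ cell X t m ∩ cell X s n := ⟨hk, hk'.1⟩
      rw [hcon] at this
      exact this
    obtain ⟨k, hk1, hk2⟩ := hne
    refine ⟨t, k, hk2, Or.inl ?_⟩
    rw [cell_eq hk1]
    refine hJ.1.2.2 _ htm _ ?_
    intro l hl
    exact ⟨hl.1, fun hl' => hl.2 hl'.2⟩

/-- every set has a countable support -/
theorem exists_countable_dec (hJ : Good X J) (hmax : ∀ J', Good X J' → J ⊆ J' → J' ⊆ J)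
    (A : Set ℕ) : ∃ S : Set ι, S.Countable ∧ Dec X J S A := by
  classical
  let f : ℕ → Finset ι := fun m => if h : ∃ t, Decides X J t m A then h.choose else ∅
  refine ⟨⋃ m, (f m : Set ι), countable_iUnion fun m => (f m).countable_toSet, ?_⟩
  intro s n
  obtain ⟨t, m, hm, ht⟩ := exists_decides hJ hmax A s n
  have hex : ∃ t, Decides X J t m A := ⟨t, ht⟩
  refine ⟨f m, subset_iUnion (fun m => (f m : Set ι)) m, m, hm, ?_⟩
  have : f m = hex.choose := dif_pos hex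
  rw [this]
  exact hex.choose_spec

theorem Dec.mono {S T : Set ι} {A : Set ℕ} (h : Dec X J S A) (hST : S ⊆ T) : Dec X J T A := by
  intro s n
  obtain ⟨t, ht, m, hm, hd⟩ := h s n
  exact ⟨t, ht.trans hST, m, hm, hd⟩

theorem dec_empty (hJ : Good X J) (S : Set ι) : Dec X J S ∅ := by
  intro s n
  refine ⟨∅, by simp, n, self_mem_cell s n, Or.inr ?_⟩
  rw [inter_empty]
  exact hJ.1.1

theorem Dec.union (hJ : Good X J) {S : Set ι} {A B : Set ℕ} (hA : Dec X J S A)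
    (hB : Dec X J S B) : Dec X J S (A ∪ B) := by
  classical
  intro s n
  obtain ⟨t, ht, m, hm, hd⟩ := hA s n
  obtain ⟨t', ht', m', hm', hd'⟩ := hB (s ∪ t) m
  have h1 : m' ∈ cell X s m := cell_anti Finset.subset_union_left m hm'
  have h2 : m' ∈ cell X t m := cell_anti Finset.subset_union_right m hm'
  refine ⟨t ∪ t', by simpa using ⟨ht, ht'⟩, m', by rwa [cell_eq hm] at h1, ?_⟩
  have e1 : cell X (t ∪ t') m' ⊆ cell X t m := by
    rw [← cell_eq h2]
    exact cell_anti Finset.subset_union_left m'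
  have e2 : cell X (t ∪ t') m' ⊆ cell X t' m' := cell_anti Finset.subset_union_right m'
  rcases hd with hd | hd
  · left
    exact hJ.1.2.2 _ hd _ (fun k hk => ⟨e1 hk.1, fun h => hk.2 (Or.inl h)⟩)
  · rcases hd' with hd' | hd'
    · left
      exact hJ.1.2.2 _ hd' _ (fun k hk => ⟨e2 hk.1, fun h => hk.2 (Or.inr h)⟩)
    · right
      refine hJ.1.2.2 _ (hJ.1.2.1 _ hd _ hd') _ ?_
      rintro k ⟨hk, h | h⟩
      · exact Or.inl ⟨e1 hk, h⟩
      · exact Or.inr ⟨e2 hk, h⟩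

theorem dec_self (hJ : Good X J) {S : Set ι} {i : ι} (hi : i ∈ S) : Dec X J S (X i) := by
  intro s n
  refine ⟨{i}, by simpa using hi, n, self_mem_cell s n, ?_⟩
  by_cases h : n ∈ X i
  · left
    convert hJ.1.1
    rw [eq_empty_iff_forall_notMem]
    rintro k ⟨hk, hk'⟩
    exact hk' ((hk i (by simp)).2 h)
  · right
    convert hJ.1.1
    rw [eq_empty_iff_forall_notMem]
    rintro k ⟨hk, hk'⟩
    exact h ((hk i (by simp)).1 hk')

theorem Dec.compl {S : Set ι} {A : Set ℕ} (h : Dec X J S A) : Dec X J S Aᶜ := by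
  intro s n
  obtain ⟨t, ht, m, hm, hd⟩ := h s n
  refine ⟨t, ht, m, hm, ?_⟩
  rcases hd with hd | hd
  · right
    exact hd
  · left
    rwa [sdiff_compl]

/-- the ideals of the chain -/
def part (X : ι → Set ℕ) (J I : Set (Set ℕ)) (S : Set ι) : Set (Set ℕ) :=
  {B | ∃ C ∈ I, Dec X J S C ∧ B \ C ∈ J}

variable {I : Set (Set ℕ)}

theorem part_subset (hI : IsIdeal I) (hJI : J ⊆ I) (S : Set ι) : part X J I S ⊆ I := by
  rintro B ⟨C, hC, -, hB⟩
  refine hI.2.2.2 _ (hI.2.2.1 _ hC _ (hJI hB)) _ ?_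
  intro k hk
  by_cases h : k ∈ C
  · exact Or.inl h
  · exact Or.inr ⟨hk, h⟩

theorem part_mono {S T : Set ι} (hST : S ⊆ T) : part X J I S ⊆ part X J I T := by
  rintro B ⟨C, hC, hd, hB⟩
  exact ⟨C, hC, hd.mono hST, hB⟩

theorem part_isIdeal (hJ : Good X J) (hI : IsIdeal I) (hJI : J ⊆ I) (S : Set ι) :
    IsIdeal (part X J I S) := by
  refine ⟨⟨∅, hI.1, dec_empty hJ S, by simpa using hJ.1.1⟩, fun h => hI.2.1
    (part_subset hI hJI S h), ?_, ?_⟩
  · rintro A ⟨C, hC, hd, hA⟩ B ⟨C', hC', hd', hB⟩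
    refine ⟨C ∪ C', hI.2.2.1 _ hC _ hC', hd.union hJ hd', ?_⟩
    refine hJ.1.2.2 _ (hJ.1.2.1 _ hA _ hB) _ ?_
    rintro k ⟨hk | hk, hk'⟩
    · exact Or.inl ⟨hk, fun h => hk' (Or.inl h)⟩
    · exact Or.inr ⟨hk, fun h => hk' (Or.inr h)⟩
  · rintro A ⟨C, hC, hd, hA⟩ B hB
    exact ⟨C, hC, hd, hJ.1.2.2 _ hA _ (sdiff_subset_sdiff_left hB)⟩

theorem mem_part {S : Set ι} {A : Set ℕ} (hJ : Good X J) (hA : A ∈ I) (hd : Dec X J S A) :
    A ∈ part X J I S := ⟨A, hA, hd, by rw [sdiff_self]; exact hJ.1.1⟩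

/-- a set whose intersection with every cell over `S` is not small is not in `part S` -/
theorem not_mem_part (hJ : Good X J) (hmax : ∀ J', Good X J' → J ⊆ J' → J' ⊆ J)
    (hI : IsIdeal I) (hJI : J ⊆ I) {S : Set ι} {Y : Set ℕ}
    (hY : ∀ t : Finset ι, (t : Set ι) ⊆ S → ∀ m, cell X t m ∩ Y ∉ J) :
    Y ∉ part X J I S := by
  classical
  rintro ⟨C, hC, hd, hYC⟩
  have hCc : Cᶜ ∉ J := by
    intro h
    apply hI.2.1
    have := hI.2.2.1 _ hC _ (hJI h)
    rwa [union_compl_self] at this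
  obtain ⟨s, n, hsn⟩ := exists_cell hJ hmax hCc
  rw [sdiff_compl] at hsn
  obtain ⟨t, ht, m, hm, hd'⟩ := hd s n
  rcases hd' with hd' | hd'
  · apply hJ.2 (s ∪ t) m
    refine hJ.1.2.2 _ (hJ.1.2.1 _ hsn _ hd') _ ?_
    intro k hk
    have h1 : k ∈ cell X s n := by
      rw [← cell_eq hm]
      exact cell_anti Finset.subset_union_left m hk
    have h2 : k ∈ cell X t m := cell_anti Finset.subset_union_right m hk
    by_cases h : k ∈ C
    · exact Or.inl ⟨h1, h⟩
    · exact Or.inr ⟨h2, h⟩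
  · apply hY t ht m
    refine hJ.1.2.2 _ (hJ.1.2.1 _ hd' _ hYC) _ ?_
    rintro k ⟨hk, hk'⟩
    by_cases h : k ∈ C
    · exact Or.inl ⟨hk, h⟩
    · exact Or.inr ⟨hk', h⟩

theorem cell_inter_not_mem (hX : Indep X) (hJ : Good X J) {t : Finset ι} {i : ι} (hi : i ∉ t)
    (m : ℕ) : cell X t m ∩ X i ∉ J ∧ cell X t m ∩ (X i)ᶜ ∉ J := by
  classical
  constructor
  · obtain ⟨k, hk⟩ := hX (insert i t) (fun j => j = i ∨ m ∈ X j)
    intro h
    apply hJ.2 (insert i t) k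
    refine hJ.1.2.2 _ h _ ?_
    intro l hl
    refine ⟨fun j hj => ?_, ?_⟩
    · rw [hl j (Finset.mem_insert_of_mem hj), hk j (Finset.mem_insert_of_mem hj)]
      have : j ≠ i := fun h => hi (h ▸ hj)
      simp [this]
    · rw [hl i (Finset.mem_insert_self _ _), hk i (Finset.mem_insert_self _ _)]
      exact Or.inl rfl
  · obtain ⟨k, hk⟩ := hX (insert i t) (fun j => j ≠ i ∧ m ∈ X j)
    intro h
    apply hJ.2 (insert i t) k
    refine hJ.1.2.2 _ h _ ?_
    intro l hl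
    refine ⟨fun j hj => ?_, ?_⟩
    · rw [hl j (Finset.mem_insert_of_mem hj), hk j (Finset.mem_insert_of_mem hj)]
      have : j ≠ i := fun h => hi (h ▸ hj)
      simp [this]
    · rw [mem_compl_iff, hl i (Finset.mem_insert_self _ _), hk i (Finset.mem_insert_self _ _)]
      simp

end construction

/-- every proper ideal-like family extends to a maximal ideal, described by an ultrafilter -/
theorem exists_maximal {J : Set (Set ℕ)} (h1 : ∅ ∈ J) (h2 : ∀ A ∈ J, ∀ B ∈ J, A ∪ B ∈ J)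
    (h3 : ∀ A ∈ J, ∀ B, B ⊆ A → B ∈ J) (h4 : univ ∉ J) :
    ∃ I, IsIdeal I ∧ J ⊆ I ∧ ∀ A, A ∈ I ∨ Aᶜ ∈ I := by
  let F : Filter ℕ :=
    { sets := {A | Aᶜ ∈ J}
      univ_sets := by simpa using h1
      sets_of_superset := fun {A B} hA hAB => h3 _ hA _ (compl_subset_compl.2 hAB)
      inter_sets := fun {A B} hA hB => by
        simp only [mem_ofPred_eq, compl_inter] at *
        exact h2 _ hA _ hB }
  have hne : F.NeBot := by
    rw [Filter.neBot_iff]
    intro h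
    have : (∅ : Set ℕ) ∈ F := by rw [h]; trivial
    have : (∅ : Set ℕ)ᶜ ∈ J := this
    rw [compl_empty] at this
    exact h4 this
  let U := Ultrafilter.of F
  have hU : (U : Filter ℕ) ≤ F := Ultrafilter.of_le F
  refine ⟨{A | Aᶜ ∈ U}, ⟨?_, ?_, ?_, ?_⟩, ?_, ?_⟩
  · change (∅ : Set ℕ)ᶜ ∈ U
    rw [compl_empty]
    exact Filter.univ_mem
  · simp
  · intro A hA B hB
    simp only [mem_ofPred_eq, compl_union] at *
    exact Filter.inter_mem hA hB
  · intro A hA B hB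
    exact Filter.mem_of_superset hA (compl_subset_compl.2 hB)
  · intro A hA
    apply hU
    change Aᶜᶜ ∈ J
    rwa [compl_compl]
  · intro A
    simp only [mem_ofPred_eq, compl_compl]
    exact (U.mem_or_compl_mem A).symm

theorem isMaximalIdeal_iff {I : Set (Set ℕ)} :
    IsMaximalIdeal I ↔ IsIdeal I ∧ ∀ A, A ∈ I ∨ Aᶜ ∈ I := by
  constructor
  · rintro ⟨hI, hmax⟩
    refine ⟨hI, fun A => ?_⟩
    obtain ⟨I', hI', hII', hor⟩ := exists_maximal hI.1 hI.2.2.1 hI.2.2.2 hI.2.1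
    rw [← hmax I' hI' hII']
    exact hor A
  · rintro ⟨hI, hor⟩
    refine ⟨hI, fun J hJ hIJ => Subset.antisymm ?_ hIJ⟩
    intro A hA
    rcases hor A with h | h
    · exact h
    · exfalso
      apply hJ.2.1
      have := hJ.2.2.1 _ hA _ (hIJ h)
      rwa [union_compl_self] at this

/-- **The chain.** An independent family indexed by a linear order in which countable sets are
bounded gives a strictly increasing chain of ideals whose union is a maximal ideal. -/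
theorem exists_chain {ι : Type u} [LinearOrder ι] (X : ι → Set ℕ) (hX : Indep X)
    (hb : ∀ S : Set ι, S.Countable → ∃ a, ∀ s ∈ S, s < a) :
    ∃ K : ι → Set (Set ℕ), (∀ a, IsIdeal (K a)) ∧ (∀ a b, a < b → K a ⊂ K b) ∧
      IsMaximalIdeal (⋃ a, K a) := by
  obtain ⟨J, hJ, hmax⟩ := exists_good (X := X)
  have huniv : univ ∉ J := fun h => hJ.2 ∅ 0 (hJ.1.2.2 _ h _ (subset_univ _))
  obtain ⟨I, hI, hJI, hor⟩ := exists_maximal hJ.1.1 hJ.1.2.1 hJ.1.2.2 huniv
  have hU : (⋃ a, part X J I (Iio a)) = I := by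
    apply Subset.antisymm
    · exact iUnion_subset fun a => part_subset hI hJI _
    · intro A hA
      obtain ⟨S, hS, hd⟩ := exists_countable_dec hJ hmax A
      obtain ⟨a, ha⟩ := hb S hS
      exact mem_iUnion.2 ⟨a, mem_part hJ hA (hd.mono fun s hs => ha s hs)⟩
  refine ⟨fun a => part X J I (Iio a), fun a => part_isIdeal hJ hI hJI _, ?_, ?_⟩
  · intro a b hab
    refine ssubset_of_subset_of_ne (part_mono (Iio_subset_Iio hab.le)) ?_
    intro h
    replace h : part X J I (Iio a) = part X J I (Iio b) := h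
    have hnot : ∀ t : Finset ι, (t : Set ι) ⊆ Iio a → a ∉ t := fun t ht ha =>
      lt_irrefl a (ht ha)
    rcases hor (X a) with h1 | h1
    · have h2 : X a ∈ part X J I (Iio b) := mem_part hJ h1
        (dec_self (S := Iio b) (i := a) hJ hab)
      rw [← h] at h2
      exact not_mem_part hJ hmax hI hJI
        (fun t ht m => (cell_inter_not_mem hX hJ (hnot t ht) m).1) h2
    · have h2 : (X a)ᶜ ∈ part X J I (Iio b) := mem_part hJ h1
        (dec_self (S := Iio b) (i := a) hJ hab).compl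
      rw [← h] at h2
      exact not_mem_part hJ hmax hI hJI
        (fun t ht m => (cell_inter_not_mem hX hJ (hnot t ht) m).2) h2
  · rw [hU, isMaximalIdeal_iff]
    exact ⟨hI, hor⟩

end Pool.Agent.K7.H77.Chain
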