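import Pool.Agent.K7.H77.Chain.Basic

set_option autoImplicit false

/-!
# Independent families of size continuum, and no chain of countable cofinality
-/

open Set Filter

namespace Pool.Agent.K7.H77.Chain

universe u

/-- an independent family of subsets of `ℕ` from an injection into `2^ω` -/
theorem exists_indep {ι : Type u} (φ : ι → ℕ → Bool) (hφ : Function.Injective φ) :
    ∃ X : ι → Set ℕ, Indep X := by
  classical
  obtain ⟨g, hg⟩ := exists_surjective_nat (Σ n : ℕ, Set (Fin n → Bool))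
  let T : ι → (Σ n : ℕ, Set (Fin n → Bool)) → Prop := fun i d => (fun j : Fin d.1 => φ i j) ∈ d.2
  refine ⟨fun i => {k | T i (g k)}, fun s P => ?_⟩
  have hd : ∀ p : ι × ι, ∃ m : ℕ, p.1 ≠ p.2 → φ p.1 m ≠ φ p.2 m := by
    intro p
    by_cases h : p.1 = p.2
    · exact ⟨0, fun h' => absurd h h'⟩
    · have : φ p.1 ≠ φ p.2 := fun h' => h (hφ h')
      obtain ⟨m, hm⟩ := Function.ne_iff.1 this
      exact ⟨m, fun _ => hm⟩
  choose d hd using hd
  obtain ⟨k, hk⟩ := hg ⟨(s ×ˢ s).sup d + 1, 
    {r | ∃ i ∈ s, P i ∧ r = fun j : Fin ((s ×ˢ s).sup d + 1) => φ i j}⟩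
  refine ⟨k, fun i hi => ?_⟩
  change T i (g k) ↔ P i
  rw [hk]
  change (∃ i' ∈ s, P i' ∧ (fun j : Fin ((s ×ˢ s).sup d + 1) => φ i j) =
    fun j : Fin ((s ×ˢ s).sup d + 1) => φ i' j) ↔ P i
  constructor
  · rintro ⟨i', hi', hP, he⟩
    by_contra hPi
    have hne : i ≠ i' := by
      rintro rfl
      exact hPi hP
    have h1 := hd (i, i') hne
    have h2 : d (i, i') < (s ×ˢ s).sup d + 1 :=
      Nat.lt_succ_of_le (Finset.le_sup (f := d) (Finset.mk_mem_product hi hi'))
    exact h1 (congrFun he ⟨d (i, i'), h2⟩)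
  · intro h
    exact ⟨i, hi, h, rfl⟩

/-- a maximal ideal is not the union of an increasing sequence of smaller ideals -/
theorem no_omega {I : Set (Set ℕ)} (hI : IsMaximalIdeal I) (K : ℕ → Set (Set ℕ))
    (hK : ∀ n, IsIdeal (K n)) (hmono : Monotone K) (hU : ⋃ n, K n = I) (hne : ∀ n, K n ≠ I) :
    False := by
  classical
  obtain ⟨hId, hor⟩ := isMaximalIdeal_iff.1 hI
  have hsub : ∀ n, K n ⊆ I := fun n => hU ▸ subset_iUnion K n
  have hb : ∀ n, ∃ b ∈ I, b ∉ K n := by
    intro n
    by_contra hcon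
    push Not at hcon
    exact hne n (Subset.antisymm (hsub n) hcon)
  choose b hbI hbK using hb
  let B : ℕ → Set ℕ := fun n => partialSups b n
  have hBmono : Monotone B := (partialSups b).monotone
  have hbB : ∀ n, b n ⊆ B n := fun n => le_partialSups b n
  have hBI : ∀ n, B n ∈ I := by
    intro n
    induction n with
    | zero => simpa [B] using hbI 0
    | succ n ih =>
      have : B (n + 1) = B n ∪ b (n + 1) := by simp [B, partialSups_add_one]
      rw [this]
      exact hId.2.2.1 _ ih _ (hbI _)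
  have hBK : ∀ n, B n ∉ K n := fun n h => hbK n ((hK n).2.2.2 _ h _ (hbB n))
  -- the levels
  let g : ℕ → ℕ := fun x => sInf {n | x ∈ B n}
  let E : Set ℕ → Set ℕ := fun S => {x | (∃ n, x ∈ B n) ∧ g x ∈ S}
  have hg1 : ∀ x, (∃ n, x ∈ B n) → x ∈ B (g x) := fun x hx => Nat.sInf_mem hx
  have hg2 : ∀ x n, x ∈ B n → g x ≤ n := fun x n hx => Nat.sInf_le hx
  have hEmono : ∀ S T, S ⊆ T → E S ⊆ E T := fun S T h x hx => ⟨hx.1, h hx.2⟩
  have hEB : ∀ n, E (Iic n) = B n := by
    intro n
    ext x
    constructor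
    · rintro ⟨h1, h2⟩
      exact hBmono h2 (hg1 x h1)
    · intro h
      exact ⟨⟨n, h⟩, hg2 x n h⟩
  have hk : ∀ n, ∃ k ≤ n, E {k} ∉ K n := by
    intro n
    by_contra hcon
    push Not at hcon
    have : ∀ j ≤ n, E (Iic j) ∈ K n := by
      intro j
      induction j with
      | zero =>
        intro h
        have h0 := hcon 0 h
        have : (Iic 0 : Set ℕ) = {0} := by
          ext x
          simp
        rwa [this]
      | succ j ih =>
        intro h
        refine (hK n).2.2.2 _ ((hK n).2.2.1 _ (ih (by omega)) _ (hcon (j + 1) h)) _ ?_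
        rintro x ⟨h1, h2⟩
        rcases Nat.lt_or_ge (g x) (j + 1) with h3 | h3
        · exact Or.inl ⟨h1, Nat.lt_succ_iff.1 h3⟩
        · exact Or.inr ⟨h1, le_antisymm h2 h3⟩
    have := this n le_rfl
    rw [hEB] at this
    exact hBK n this
  choose k hkn hkK using hk
  have htend : Tendsto k atTop atTop := by
    rw [tendsto_atTop]
    intro c
    have hv : ∀ v ∈ Finset.range c, ∀ᶠ n in atTop, k n ≠ v := by
      intro v _
      have h1 : E {v} ∈ I := by
        refine hId.2.2.2 _ (hBI v) _ ?_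
        rw [← hEB]
        exact hEmono _ _ (by simp)
      rw [← hU] at h1
      obtain ⟨m, hm⟩ := mem_iUnion.1 h1
      filter_upwards [eventually_ge_atTop m] with n hn h
      apply hkK n
      rw [h]
      exact hmono hn hm
    have := (Finset.eventually_all (Finset.range c)).2 hv
    filter_upwards [this] with n hn
    by_contra hlt
    push Not at hlt
    exact hn (k n) (Finset.mem_range.2 hlt) rfl
  obtain ⟨φ, hφ, hkφ⟩ := strictMono_subseq_of_tendsto_atTop htend
  let S : Set ℕ := {v | ∃ j, v = k (φ (2 * j))}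
  rcases hor (E S) with h | h
  · rw [← hU] at h
    obtain ⟨m, hm⟩ := mem_iUnion.1 h
    have h1 : m ≤ φ (2 * m) := le_trans (by omega) (hφ.le_apply (x := 2 * m))
    apply hkK (φ (2 * m))
    apply hmono h1
    refine (hK m).2.2.2 _ hm _ (hEmono _ _ ?_)
    rintro v rfl
    exact ⟨m, rfl⟩
  · rw [← hU] at h
    obtain ⟨m, hm⟩ := mem_iUnion.1 h
    have h1 : m ≤ φ (2 * m + 1) := le_trans (by omega) (hφ.le_apply (x := 2 * m + 1))
    apply hkK (φ (2 * m + 1))
    apply hmono h1
    refine (hK m).2.2.2 _ hm _ ?_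
    rintro x ⟨-, hx⟩ ⟨-, hx'⟩
    obtain ⟨j, hj⟩ := hx'
    rw [mem_singleton_iff] at hx
    rw [hx] at hj
    have := hkφ.injective hj
    omega

/-- the linear order form -/
theorem bounded_of_chain {ι : Type u} [LinearOrder ι] [Nonempty ι] [NoMaxOrder ι]
    (K : ι → Set (Set ℕ)) (hK : ∀ a, IsIdeal (K a)) (hlt : ∀ a b, a < b → K a ⊂ K b)
    (hmax : IsMaximalIdeal (⋃ a, K a)) (S : Set ι) (hS : S.Countable) : ∃ a, ∀ s ∈ S, s < a := by
  by_contra hcon
  push Not at hcon
  have hmono : ∀ a b, a ≤ b → K a ⊆ K b := by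
    intro a b hab
    rcases hab.lt_or_eq with h | rfl
    · exact (hlt a b h).1
    · exact Subset.rfl
  have hne : S.Nonempty := by
    obtain ⟨s, hs, -⟩ := hcon (Classical.arbitrary ι)
    exact ⟨s, hs⟩
  obtain ⟨f, hf⟩ := hS.exists_eq_range hne
  refine no_omega hmax (fun n => K (partialSups f n)) (fun n => hK _)
    (fun m n hmn => hmono _ _ ((partialSups f).monotone hmn)) ?_ ?_
  · apply Subset.antisymm
    · exact iUnion_subset fun n => subset_iUnion K _
    · refine iUnion_subset fun a => ?_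
      obtain ⟨s, hs, has⟩ := hcon a
      rw [hf] at hs
      obtain ⟨n, rfl⟩ := hs
      exact (hmono _ _ (has.trans (le_partialSups f n))).trans
        (subset_iUnion (fun n => K (partialSups f n)) n)
  · intro n h
    obtain ⟨b, hb⟩ := exists_gt (partialSups f n)
    have h1 := hlt _ _ hb
    apply h1.2
    rw [h]
    exact subset_iUnion K b

end Pool.Agent.K7.H77.Chain
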